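import Pool.Agent.H59.PG.BinDefs

/-!
# Parity games: small priorities
-/

set_option autoImplicit false

namespace Pool.PG

open Filter TMLib N487b59b3 N68a2faeb

namespace CMWx

lemma len_cmp (g : Game) : (cmp g).length = g.length := by
  unfold cmp
  simp

lemma vx_lt (g : Game) {v : ℕ} (hv : v < g.length) :
    vx (cmp g) v = ((own g v, phi g (pri g v)), (suc g v).map fun w => min w g.length) := by
  have h1 : v < (cmp g).length := by rw [len_cmp]; exact hv
  unfold vx own pri suc vx
  rw [List.getD_eq_getElem _ _ h1, List.getD_eq_getElem _ _ hv]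
  unfold cmp
  rw [List.getElem_map]

lemma vx_ge (g : Game) {v : ℕ} (hv : g.length ≤ v) : vx (cmp g) v = vx g v := by
  have h1 : (cmp g).length ≤ v := by rw [len_cmp]; exact hv
  unfold vx
  rw [List.getD_eq_default _ _ h1, List.getD_eq_default _ _ hv]

lemma own_cmp (g : Game) (v : ℕ) : own (cmp g) v = own g v := by
  rcases lt_or_ge v g.length with h | h
  · unfold own
    rw [vx_lt g h]
    rfl
  · unfold own
    rw [vx_ge g h]

lemma suc_cmp {g : Game} (hg : Valid g) (v : ℕ) : suc (cmp g) v = suc g v := by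
  rcases lt_or_ge v g.length with h | h
  · have h1 : suc (cmp g) v = (suc g v).map fun w => min w g.length := by
      change (vx (cmp g) v).2 = _
      rw [vx_lt g h]
    rw [h1]
    conv_rhs => rw [← List.map_id (suc g v)]
    refine List.map_congr_left fun w hw => ?_
    exact min_eq_left ((hg v h).2 w hw).le
  · unfold suc
    rw [vx_ge g h]

lemma pri_cmp (g : Game) {v : ℕ} (hv : v < g.length) : pri (cmp g) v = phi g (pri g v) := by
  change (vx (cmp g) v).1.2 = _
  rw [vx_lt g hv]

lemma count_aux (g : Game) {p q : ℕ} (h : p < q) :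
    g.countP (fun e => decide (e.1.2 < p)) + g.countP (fun e => decide (e.1.2 = p)) ≤
      g.countP (fun e => decide (e.1.2 < q)) := by
  induction g with
  | nil => simp
  | cons e g ih =>
    simp only [List.countP_cons, decide_eq_true_eq]
    split_ifs <;> omega

lemma phi_lt (g : Game) {u : ℕ} (hu : u < g.length) {q : ℕ} (h : pri g u < q) :
    phi g (pri g u) < phi g q := by
  have h1 := count_aux g h
  have h2 : 0 < g.countP (fun e => decide (e.1.2 = pri g u)) := by
    rw [List.countP_pos_iff]
    refine ⟨g[u], List.getElem_mem hu, ?_⟩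
    rw [decide_eq_true_eq]
    unfold pri vx
    rw [List.getD_eq_getElem _ _ hu]
  unfold phi
  rw [← List.countP_eq_length_filter, ← List.countP_eq_length_filter]
  omega

lemma phi_le_iff (g : Game) {u w : ℕ} (hu : u < g.length) (hw : w < g.length) :
    phi g (pri g u) ≤ phi g (pri g w) ↔ pri g u ≤ pri g w := by
  constructor
  · intro h
    by_contra hn
    have := phi_lt g hw (not_le.1 hn)
    omega
  · intro h
    rcases eq_or_lt_of_le h with h1 | h1
    · rw [h1]
    · exact (phi_lt g hu h1).le

lemma phi_even (g : Game) (p : ℕ) : Even (phi g p) ↔ Even p := by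
  unfold phi
  rw [Nat.even_iff, Nat.even_iff]
  omega

lemma play_lt {g : Game} (hg : Valid g) {v : ℕ} (hv : v < g.length) {x : ℕ → ℕ}
    (hx : Play g v x) (n : ℕ) : x n < g.length := by
  induction n with
  | zero => rw [hx.1]; exact hv
  | succ n ih => exact (hg (x n) ih).2 _ (hx.2 n)

lemma won_cmp (g : Game) {x : ℕ → ℕ} (hx : ∀ n, x n < g.length) (i : Bool) :
    WonBy (cmp g) i x ↔ WonBy g i x := by
  have hp : ∀ n, pri (cmp g) (x n) = phi g (pri g (x n)) := fun n => pri_cmp g (hx n)
  constructor
  · rintro ⟨p', h1, h2, h3⟩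
    obtain ⟨n₀, hn₀⟩ := h1.exists
    rw [hp] at hn₀
    refine ⟨pri g (x n₀), h1.mono fun n hn => ?_, h2.mono fun n hn => ?_, ?_⟩
    · rw [hp] at hn
      have h4 : phi g (pri g (x n)) = phi g (pri g (x n₀)) := by rw [hn, hn₀]
      exact le_antisymm ((phi_le_iff g (hx n) (hx n₀)).1 h4.le)
        ((phi_le_iff g (hx n₀) (hx n)).1 h4.ge)
    · rw [hp, ← hn₀] at hn
      exact (phi_le_iff g (hx n₀) (hx n)).1 hn
    · rw [← h3, ← hn₀, phi_even]
  · rintro ⟨p, h1, h2, h3⟩
    obtain ⟨n₀, hn₀⟩ := h1.exists
    refine ⟨phi g p, h1.mono fun n hn => ?_, h2.mono fun n hn => ?_, ?_⟩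
    · rw [hp, hn]
    · rw [hp, ← hn₀]
      rw [← hn₀] at hn
      exact (phi_le_iff g (hx n₀) (hx n)).2 hn
    · rw [phi_even]
      exact h3

end CMWx

open CMWx in
/-- **CMW**. -/
theorem cmw : CMWStmt := by
  intro g hg
  constructor
  · intro v hv
    rw [len_cmp] at hv
    rw [suc_cmp hg, len_cmp]
    exact hg v hv
  · intro v hv i
    have hplay : ∀ x, Play (cmp g) v x ↔ Play g v x := by
      intro x
      unfold Play
      simp only [suc_cmp hg]
    have hstrat : ∀ σ, Strat (cmp g) i σ ↔ Strat g i σ := by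
      intro σ
      unfold Strat
      simp only [suc_cmp hg, own_cmp, len_cmp]
    have hfol : ∀ σ x, Follows (cmp g) i σ x ↔ Follows g i σ x := by
      intro σ x
      unfold Follows
      simp only [own_cmp]
    unfold Win
    refine exists_congr fun σ => and_congr (hstrat σ) ?_
    refine forall_congr' fun x => ?_
    rw [hplay, hfol]
    refine imp_congr_right fun h1 => imp_congr_right fun _ => ?_
    exact won_cmp g (play_lt hg hv h1) i

end Pool.PG
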