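import Pool.Agent.H59.PG.Stmts
import Pool.Agent.TM.Sim

/-!
# Parity games with numbers in binary: definitions and statements
-/

set_option autoImplicit false

namespace Pool.PG

open Filter TMLib N487b59b3 N68a2faeb

/-- The value of a list of bits; the first bit is the least significant. -/
def val (l : List Bool) : ℕ := l.foldr (fun b n => b.toNat + 2 * n) 0

/-- The new number for the priority `p`. -/
def phi (g : Game) (p : ℕ) : ℕ := 2 * (g.filter fun e => decide (e.1.2 < p)).length + p % 2

/-- The game with small priorities. -/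
def cmp (g : Game) : Game :=
  g.map fun e => ((e.1.1, phi g e.1.2), e.2.map fun w => min w g.length)

/-- **NUM** (60). Numbers in binary.  (`encodeNat_eq` of `TM/BitEnc` for the last clause.) -/
def NUMStmt : Prop :=
  PTime (fun p : List Bool × ℕ => min (val p.1) p.2) ∧
  PTime (fun p : List Bool × List Bool => decide (val p.1 < val p.2)) ∧
  ∀ n : ℕ, val (bitEncode n) = n

/-- **SPL** (60). Parsing.  (`chunks 2 1` of `TM/NP` for `U`.) -/
def SPLStmt : Prop :=
  ∃ (S : List Bool → List (List Bool)) (U : List Bool → List Bool × List Bool),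
    PTime S ∧ PTime U ∧ (∀ l : List (List Bool), S ((l.map delimit).flatten) = l) ∧
    ∀ x y : List Bool, U (delimit x ++ y) = (x, y)

/-- **CMW** (80). The winners do not change.  (`phi g` keeps the parity and is monotone on the
priorities of the vertices; `suc (cmp g) v = suc g v` if `Valid g`, `own (cmp g) v = own g v`.) -/
def CMWStmt : Prop :=
  ∀ g : Game, Valid g → Valid (cmp g) ∧ ∀ v < g.length, ∀ i : Bool, Win (cmp g) i v ↔ Win g i v

/-- **PCM** (60, needs SPL, NUM). -/
def PCMStmt : Prop :=
  (∃ F : List Bool → Game, PTime F ∧ ∀ g : Game, F (bitEncode g) = cmp g) ∧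
  ∃ F : List Bool → Game × ℕ, PTime F ∧
    ∀ (g : Game) (v : ℕ), F (bitEncode (g, v)) = (cmp g, min v g.length)

/-- **BOT** (30, needs PCM). From `PTime` to polynomial time with numbers in binary. -/
def BOTStmt : Prop :=
  (∀ (β : Type) [Enc β] [N487b59b3 β] [BitEnc β] (B : Game → β), PTime B →
    IsPolyTime (fun g : Game => B (cmp g))) ∧
  ∀ (β : Type) [Enc β] [N487b59b3 β] [BitEnc β] (B : Game × ℕ → β), PTime B →
    IsPolyTime (fun p : Game × ℕ => B (cmp p.1, min p.2 p.1.length))

/-- **BIN** (50, needs SPL, NUM). From polynomial time with numbers in binary to `PTime`. -/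
def BINStmt : Prop :=
  (∀ A : Game → List Bool, IsPolyTime A → PTime A) ∧
  (∀ B : Game × ℕ → Bool, IsPolyTime B → PTime B) ∧
  (∀ B : Game → Bool, IsPolyTime B → PTime B) ∧
  (∀ B : Game → ℕ × Bool, IsPolyTime B → PTime (fun g => (min (B g).1 g.length, (B g).2))) ∧
  ∀ B : Game → ℕ, IsPolyTime B → PTime (fun g => min (B g) (2 * g.length))

end Pool.PG
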