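import Pool.Agent.H59.PG.Stmts

/-!
# Rows LSO, TSO: labels and tuples give a solution
-/

set_option autoImplicit false

namespace Pool.PG

open Filter TMLib

/-- The polynomial time part. -/
theorem ptime_search (hPSR : PSRStmt) (hPEV : PEVStmt) (hPDC : PDCStmt)
    (w : Game × ℕ → List Game → ℕ) (M : Game × ℕ → ℕ)
    (hw : PTime (fun p : (Game × ℕ) × List Game => w p.1 p.2)) (hM : PTime M) :
    PTime (fun a : Game × ℕ =>
      srch (w a) (M a) (fun t => !srch (w a) (M a) (ev a.2) (dual t)) a.1) := by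
  have h0 : PTime (fun p : (Game × ℕ) × Game => ev p.1.2 p.2) :=
    hPEV.comp (f := fun p : (Game × ℕ) × Game => (p.1.2, p.2))
      (PTime.pair (PTime.snd (PTime.fst PTime.id)) (PTime.snd PTime.id))
  have h1 := hPSR (Game × ℕ) w M (fun a t => ev a.2 t) hw hM h0
  have h2 : PTime (fun p : (Game × ℕ) × Game =>
      !srch (w p.1) (M p.1) (ev p.1.2) (dual p.2)) := by
    refine PTime.not ?_
    exact h1.comp (f := fun p : (Game × ℕ) × Game => (p.1, dual p.2))
      (PTime.pair (PTime.fst PTime.id) (hPDC.1.comp (PTime.snd PTime.id)))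
  have h3 := hPSR (Game × ℕ) w M
    (fun a t => !srch (w a) (M a) (ev a.2) (dual t)) hw hM h2
  exact h3.comp (f := fun a : Game × ℕ => (a, a.1)) (PTime.pair PTime.id (PTime.fst PTime.id))

theorem lso_row (hSR2 : SR2Stmt) (hSWL : SWLStmt) (hHAD : HADStmt) (hHDL : HDLStmt)
    (hARI : ARIStmt) (hPWL : PWLStmt) (hPSR : PSRStmt) (hPEV : PEVStmt) (hPDC : PDCStmt)
    (hPHL : PHLStmt) (hSOL : SOLStmt) : LSOStmt := by
  rintro δ hδ hδ4 ⟨A, hA, hright⟩
  obtain ⟨e, he⟩ := hARI δ hδ hδ4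
  set H : Game × ℕ → List (List Bool) := fun a => hdL ((28 * a.1.length) ^ e) with hHdef
  have hn : PTime (fun a : Game × ℕ => a.1.length) := PTime.length (PTime.fst PTime.id)
  have hH : PTime H := hPHL.1.comp (PTime.pow (PTime.mul (PTime.const 28) hn) e)
  have hN : PTime (fun a => (H a).length) := PTime.length hH
  have hC : PTime (fun a => cdw (H a)) := hPHL.2.comp hH
  have hv : PTime (fun a : Game × ℕ => a.2) := PTime.snd PTime.id
  have hw := hPWL A (Game × ℕ) (fun a => (H a).length) (fun a => a.1.length) (fun a => a.2)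
    (fun a => cdw (H a)) hA hN hn hv hC
  have hM : PTime (fun a => 2 * (H a).length) := PTime.mul (PTime.const 2) hN
  refine ⟨_, ptime_search hPSR hPEV hPDC
    (fun a => wl A (H a).length (cdw (H a)) a.1.length a.2) _ hw hM, ?_⟩
  intro g v hg hvg
  have hn1 : 1 ≤ g.length := by omega
  obtain ⟨j, hj, hLj, _⟩ := hHDL ((28 * g.length) ^ e) (Nat.one_le_iff_ne_zero.2 (by positivity))
  have hlen : (hd j).length = 2 ^ j := (hHAD j).1
  have hHj : H (g, v) = hd j := hj
  have hS : Sel (wl A (2 ^ j) (cdw (hd j)) g.length v) (2 * 2 ^ j) v g.length := by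
    refine hSWL A δ j g.length v hvg hright ?_
    have h := he g.length hn1 (2 ^ j) hLj
    have e1 : (((2 ^ j : ℕ)) : ℝ) = (2 : ℝ) ^ j := by push_cast; rfl
    rw [e1] at h
    exact h
  have h := hSR2 (wl A (2 ^ j) (cdw (hd j)) g.length v) (2 * 2 ^ j) v g
    (Nat.one_le_iff_ne_zero.2 (by positivity)) hg hvg hS
  simp only [hHj, hlen]
  rw [h]
  exact ((hSOL g hg).2 v hvg true).symm

theorem tso_row (hSR2 : SR2Stmt) (hSWT : SWTStmt) (hPWT : PWTStmt) (hPSR : PSRStmt)
    (hPEV : PEVStmt) (hPDC : PDCStmt) (hSOL : SOLStmt) : TSOStmt := by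
  rintro m hm ⟨A, hA, hans⟩
  have hn : PTime (fun a : Game × ℕ => a.1.length) := PTime.length (PTime.fst PTime.id)
  have hv : PTime (fun a : Game × ℕ => a.2) := PTime.snd PTime.id
  have hw := hPWT A m (Game × ℕ) (fun a => a.1.length) (fun a => a.2) (fun _ => bt m) hA hn hv
    (PTime.const (bt m))
  have hM : PTime (fun _ : Game × ℕ => 2 ^ m) := PTime.const _
  refine ⟨_, ptime_search hPSR hPEV hPDC (fun a => wt A m (bt m) a.1.length a.2) _ hw hM, ?_⟩
  intro g v hg hvg
  obtain ⟨_, hS⟩ := hSWT A m g.length v hvg hans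
  have h := hSR2 (wt A m (bt m) g.length v) (2 ^ m) v g
    (Nat.one_le_iff_ne_zero.2 (by positivity)) hg hvg hS
  simp only
  rw [h]
  exact ((hSOL g hg).2 v hvg true).symm

end Pool.PG
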