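import Pool.Agent.H59.PG.Stmts

/-!
# Rows SR1, SR2: correctness of the search
-/

set_option autoImplicit false

namespace Pool.PG

open Filter TMLib

theorem sr1_row (h1 : LVSStmt) (h2 : EVDStmt) : SR1Stmt := by
  intro w M v g hM hg hv hS hsing
  obtain ⟨hl, hw⟩ := h1 w M v g hM hg hv hS
  have hev : ∀ t ∈ lvs w M g, win t v = ev v t := by
    intro t ht
    obtain ⟨hVt, hlen, ht3⟩ := hl t ht
    refine h2 t v hVt (by rw [hlen]; exact hv) ?_
    intro u hu
    rw [hlen] at hu
    obtain ⟨_, hf, htr⟩ := ht3 u hu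
    rcases Bool.eq_false_or_eq_true (own g u) with ho | ho
    · exact htr ho
    · obtain ⟨x, hx⟩ := hsing u hu ho
      exact ⟨x, by rw [hf ho, hx]⟩
  unfold srch
  rw [Bool.eq_iff_iff, List.any_eq_true, ← hw]
  constructor
  · rintro ⟨t, ht, h⟩
    exact ⟨t, ht, by rw [hev t ht]; exact h⟩
  · rintro ⟨t, ht, h⟩
    exact ⟨t, ht, by rw [← hev t ht]; exact h⟩

theorem sr2_row (h1 : LVSStmt) (h2 : SR1Stmt) (h3 : DUAStmt) : SR2Stmt := by
  intro w M v g hM hg hv hS
  obtain ⟨hl, hw⟩ := h1 w M v g hM hg hv hS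
  have hleaf : ∀ t ∈ lvs w M g, (!srch w M (ev v) (dual t)) = win t v := by
    intro t ht
    obtain ⟨hVt, hlen, ht3⟩ := hl t ht
    obtain ⟨hdl, hdv, hdo, hdw⟩ := h3 t
    have e1 : srch w M (ev v) (dual t) = win (dual t) v := by
      refine h2 w M v (dual t) hM (hdv hVt) (by rw [hdl, hlen]; exact hv)
        (by rw [hdl, hlen]; exact hS) ?_
      intro u hu hou
      rw [hdl] at hu
      obtain ⟨ho, hs⟩ := hdo u hu
      rw [hs]
      have hu' : u < g.length := by rw [← hlen]; exact hu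
      obtain ⟨hog, _, htr⟩ := ht3 u hu'
      apply htr
      rw [← hog]
      rw [ho] at hou
      simpa using hou
    rw [e1, hdw hVt v (by rw [hlen]; exact hv), Bool.not_not]
  have hany : srch w M (fun t => !srch w M (ev v) (dual t)) g =
      (lvs w M g).any fun t => !srch w M (ev v) (dual t) := rfl
  rw [hany, Bool.eq_iff_iff, List.any_eq_true, ← hw]
  constructor
  · rintro ⟨t, ht, h⟩
    exact ⟨t, ht, by rw [← hleaf t ht]; exact h⟩
  · rintro ⟨t, ht, h⟩
    exact ⟨t, ht, by rw [hleaf t ht]; exact h⟩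

end Pool.PG
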