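import Pool.Agent.H2.PG.SWL
import Pool.Agent.H14.PG.CHD
import Pool.Agent.H14.PG.WOR
import Pool.Agent.H15.PG.AGM
import Pool.Agent.H18.PG.EAS
import Pool.Agent.H18.PG.PHL
import Pool.Agent.H18.PG.PSE
import Pool.Agent.H18.PG.PWL
import Pool.Agent.H22.PG.CAT
import Pool.Agent.H22.PG.LVS
import Pool.Agent.H22.PG.ORG
import Pool.Agent.H22.PG.PSR
import Pool.Agent.H36.PG.GLU
import Pool.Agent.H36.PG.RST
import Pool.Agent.H42.PG.EMB
import Pool.Agent.H49.PG.SOL
import Pool.Agent.H50.PG.ARI
import Pool.Agent.H50.PG.DUA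
import Pool.Agent.H51.PG.WIN
import Pool.Agent.H53.PG.SLC
import Pool.Agent.H54.PG.RSL
import Pool.Agent.H59.PG.LT
import Pool.Agent.H59.PG.SR
import Pool.Agent.H63.PG.DTA
import Pool.Agent.H71.PG.ATR
import Pool.Agent.H72.PG.PRNr
import Pool.Agent.H72.PG.SWT
import Pool.Agent.H77.PG.EVD
import Pool.Agent.H77.PG.PPR
import Pool.Agent.H78.PG.PEV
import Pool.Agent.H78.PG.PGL
import Pool.Agent.H78.PG.PRS
import Pool.Agent.H78.PG.PV1
import Pool.Agent.H99.PG.DET

/-!
# Parity games: the theorem
-/

set_option autoImplicit false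

namespace Pool.PG

theorem det_all : DETStmt := det_row (dta_row atr_row)

theorem sol_all : SOLStmt := sol_row det_all win_row

theorem emb_all : EMBStmt := emb_row sol_all

theorem cat_all : CATStmt := cat_row emb_all glu_row

theorem org_all : ORGStmt := org_row emb_all glu_row sol_all win_row

theorem dua_all : DUAStmt := dua_row sol_all win_row

theorem lvs_all : LVSStmt := lvs_row (chd_row sol_all win_row) prn_row

theorem sr2_all : SR2Stmt := sr2_row lvs_all (sr1_row lvs_all (evd_row sol_all)) dua_all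

theorem rst_all : RSTStmt := rst_row sol_all rsl_row win_row

theorem swl_all : SWLStmt :=
  swl_row org_all rst_all rsl_row cat_all had_row (wor_row had_row agm_row) slc_row sol_all

theorem swt_all : SWTStmt := swt_row org_all slc_row sol_all agm_row

theorem pgl_all : PGLStmt := pgl_row pv1_row

theorem prs_all : PRSStmt := prs_row pv1_row

theorem pdc_all : PDCStmt := pdc_row pv1_row

theorem psr_all : PSRStmt := psr_row ppr_row pdc_all

theorem pev_all : PEVStmt := pev_row pv1_row

theorem eas_all : EASStmt := eas_row sol_all rst_all rsl_row prs_all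

theorem lso_all : LSOStmt :=
  lso_row sr2_all swl_all had_row hdl_row ari_row (pwl_row pgl_all prs_all pag_row pse_row)
    psr_all pev_all pdc_all phl_row sol_all

theorem tso_all : TSOStmt :=
  tso_row sr2_all swt_all (pwt_row pgl_all pag_row pse_row) psr_all pev_all pdc_all sol_all

/-- Nearly random labels are enough. -/
theorem labels_iff {δ : ℝ} (h0 : 0 < δ) (h1 : δ < 1 / 4) : Solves ↔ Labels δ :=
  ⟨eas_all.1 δ, lso_all δ h0 h1⟩

/-- Homogeneous games, one vertex, approximate counting. -/
theorem homog_tfae : [Solves, Homog, OneVertex, Count].TFAE := by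
  obtain ⟨_, h2, h3, _, h5, h6, h7⟩ := eas_all
  tfae_have 1 → 3 := h2
  tfae_have 1 → 4 := h3
  tfae_have 3 → 2 := h5
  tfae_have 4 → 2 := h6
  tfae_have 2 → 1 := h7
  tfae_finish

/-- Answers to `m` questions, at least one of which is right. -/
theorem tuples_iff {m : ℕ} (hm : 1 ≤ m) : Solves ↔ Tuples m :=
  ⟨eas_all.2.2.2.1 m hm, tso_all m hm⟩

end Pool.PG
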