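import Pool.Agent.H59.PG.BinDefs

/-!
# Parity games with numbers in binary
-/

set_option autoImplicit false

namespace Pool.PG

open Filter TMLib N487b59b3 N68a2faeb

namespace Bin

/-- Games with numbers in binary. -/
abbrev BG : Type := List ((Bool × List Bool) × List (List Bool))

/-- The vertex with the code `e`. -/
def rV (S : List Bool → List (List Bool)) (U : List Bool → List Bool × List Bool) (e : List Bool) :
    (Bool × List Bool) × List (List Bool) :=
  (((U (U e).1).1.headD false, (U (U e).1).2), S (U e).2)

/-- The game with small priorities. -/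
def cB (G : BG) : Game :=
  G.map fun e => ((e.1.1, 2 * (G.filter fun e' => decide (val e'.1.2 < val e.1.2)).length +
    bif e.1.2.headD false then 1 else 0), e.2.map fun w => min (val w) G.length)

/-- The numbers of the game in binary. -/
def bg (g : Game) : BG := g.map fun e => ((e.1.1, bitEncode e.1.2), e.2.map bitEncode)

lemma headD_ptime {α : Type} [Enc α] {f : α → List Bool} (hf : PTime f) :
    PTime (fun x => (f x).headD false) :=
  (PTime.getD (PTime.head? hf) (PTime.const false)).congr fun x => by cases f x <;> rfl

lemma val_mod (l : List Bool) : val l % 2 = bif l.headD false then 1 else 0 := by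
  cases l with
  | nil => rfl
  | cons b l =>
    have h : val (b :: l) = b.toNat + 2 * val l := rfl
    rw [h]
    cases b
    · simp
    · simp only [Bool.toNat_true, List.headD_cons, cond_true]
      omega

lemma rV_ptime {S : List Bool → List (List Bool)} {U : List Bool → List Bool × List Bool}
    (hS : PTime S) (hU : PTime U) : PTime (rV S U) := by
  have h1 : PTime (fun e => U (U e).1) := hU.comp (PTime.fst hU)
  exact PTime.pair (PTime.pair (headD_ptime (PTime.fst h1)) (PTime.snd h1))
    (hS.comp (PTime.snd hU))

lemma cB_ptime (hN : NUMStmt) : PTime cB := by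
  obtain ⟨h1, h2, -⟩ := hN
  unfold cB
  have k1 : PTime (fun p : BG × ((Bool × List Bool) × List (List Bool)) =>
      (p.1.filter fun e' => decide (val e'.1.2 < val p.2.1.2)).length) := by
    refine PTime.length (PTime.filter (l := fun p : BG × ((Bool × List Bool) × List (List Bool)) =>
      p.1) (g := fun p e' => decide (val e'.1.2 < val p.2.1.2)) (PTime.fst PTime.id) ?_)
    exact h2.comp (PTime.pair (PTime.snd (PTime.fst (PTime.snd PTime.id)))
      (PTime.snd (PTime.fst (PTime.snd (PTime.fst PTime.id)))))
  have k2 : PTime (fun p : BG × ((Bool × List Bool) × List (List Bool)) =>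
      bif p.2.1.2.headD false then 1 else 0) :=
    PTime.cond (headD_ptime (PTime.snd (PTime.fst (PTime.snd PTime.id)))) (PTime.const 1)
      (PTime.const 0)
  have k3 : PTime (fun p : BG × ((Bool × List Bool) × List (List Bool)) =>
      p.2.2.map fun w => min (val w) p.1.length) := by
    refine PTime.map (l := fun p : BG × ((Bool × List Bool) × List (List Bool)) => p.2.2)
      (g := fun p w => min (val w) p.1.length) (PTime.snd (PTime.snd PTime.id)) ?_
    exact h1.comp (PTime.pair (PTime.snd PTime.id)
      (PTime.length (PTime.fst (PTime.fst PTime.id))))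
  refine PTime.map (l := fun G : BG => G) (g := fun G e => ((e.1.1,
    2 * (G.filter fun e' => decide (val e'.1.2 < val e.1.2)).length +
    bif e.1.2.headD false then 1 else 0), e.2.map fun w => min (val w) G.length)) PTime.id ?_
  exact PTime.pair (PTime.pair (PTime.fst (PTime.fst (PTime.snd PTime.id)))
    (PTime.add (PTime.mul (PTime.const 2) k1) k2)) k3

lemma cB_bg (hN : NUMStmt) (g : Game) : cB (bg g) = cmp g := by
  obtain ⟨-, -, h3⟩ := hN
  unfold cB cmp
  have hlen : (bg g).length = g.length := by unfold bg; simp
  rw [hlen]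
  unfold bg
  rw [List.map_map]
  refine List.map_congr_left fun e _ => ?_
  simp only [Function.comp]
  refine Prod.ext (Prod.ext rfl ?_) ?_
  · simp only
    unfold phi
    rw [List.filter_map, List.length_map]
    have e1 : (bif (bitEncode e.1.2).headD false then 1 else 0) = e.1.2 % 2 := by
      rw [← val_mod, h3]
    rw [e1]
    congr 2
    congr 1
    refine List.filter_congr fun e' _ => ?_
    simp only [Function.comp, h3]
  · simp only
    rw [List.map_map]
    refine List.map_congr_left fun w _ => ?_
    simp only [Function.comp, h3]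

lemma rV_vx {S : List Bool → List (List Bool)} {U : List Bool → List Bool × List Bool}
    (hS : ∀ l : List (List Bool), S ((l.map delimit).flatten) = l)
    (hU : ∀ x y : List Bool, U (delimit x ++ y) = (x, y)) (e : Vx) :
    rV S U (bitEncode e) = ((e.1.1, bitEncode e.1.2), e.2.map bitEncode) := by
  have e1 : bitEncode e = delimit (bitEncode e.1) ++ bitEncode e.2 := rfl
  have e2 : bitEncode e.1 = delimit [e.1.1] ++ bitEncode e.1.2 := rfl
  have e3 : bitEncode e.2 = ((e.2.map bitEncode).map delimit).flatten := rfl
  unfold rV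
  rw [e1, hU]
  simp only
  rw [e2, hU, e3, hS]
  rfl

lemma parse_bg {S : List Bool → List (List Bool)} {U : List Bool → List Bool × List Bool}
    (hS : ∀ l : List (List Bool), S ((l.map delimit).flatten) = l)
    (hU : ∀ x y : List Bool, U (delimit x ++ y) = (x, y)) (g : Game) :
    (S (bitEncode g)).map (rV S U) = bg g := by
  have e1 : bitEncode g = ((g.map bitEncode).map delimit).flatten := rfl
  rw [e1, hS, List.map_map]
  unfold bg
  refine List.map_congr_left fun e _ => ?_
  exact rV_vx hS hU e

end Bin

open Bin

/-- **PCM**. -/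
theorem pcm_row (hSPL : SPLStmt) (hNUM : NUMStmt) : PCMStmt := by
  obtain ⟨S, U, hS, hU, hS', hU'⟩ := hSPL
  have hR : PTime (fun z => cB ((S z).map (rV S U))) :=
    (cB_ptime hNUM).comp (PTime.map (l := S) (g := fun _ e => rV S U e) hS
      ((rV_ptime hS hU).comp (PTime.snd PTime.id)))
  constructor
  · exact ⟨_, hR, fun g => by rw [parse_bg hS' hU', cB_bg hNUM]⟩
  · refine ⟨fun z => (cB ((S (U z).1).map (rV S U)), min (val (U z).2)
      (S (U z).1).length), ?_, fun g v => ?_⟩
    · exact PTime.pair (hR.comp (PTime.fst hU)) (hNUM.1.comp (PTime.pair (PTime.snd hU)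
        (PTime.length (hS.comp (PTime.fst hU)))))
    · have e1 : bitEncode (g, v) = delimit (bitEncode g) ++ bitEncode v := rfl
      rw [e1]
      have h2 := hNUM.2.2 v
      have h3 : (S (bitEncode g)).length = g.length := by
        have := congrArg List.length (parse_bg hS' hU' g)
        unfold bg at this
        simpa using this
      simp only [hU', parse_bg hS' hU', cB_bg hNUM, h2, h3]

/-- **BOT**. -/
theorem bot_row (h : PCMStmt) : BOTStmt := by
  obtain ⟨⟨F, hF, hF'⟩, G, hG, hG'⟩ := h
  constructor
  · intro β _ _ _ B hB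
    exact tm2_of_ptime (f := fun z => bitEncode (B (F z))) (PTime.bitEncode (hB.comp hF))
      (fun g => by rw [← hF' g]; rfl)
  · intro β _ _ _ B hB
    exact tm2_of_ptime (f := fun z => bitEncode (B (G z))) (PTime.bitEncode (hB.comp hG))
      (fun p => by rw [← hG' p.1 p.2]; rfl)

/-- **BIN**. -/
theorem bin_row (hSPL : SPLStmt) (hNUM : NUMStmt) : BINStmt := by
  obtain ⟨S, U, hS, hU, hS', hU'⟩ := hSPL
  have hb : PTime (fun g : Game => bitEncode g) := BitEnc.ptime
  have hb2 : PTime (fun p : Game × ℕ => bitEncode p) := BitEnc.ptime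
  refine ⟨?_, ?_, ?_, ?_, ?_⟩
  · intro A hA
    obtain ⟨F, hF, hF'⟩ := ptime_of_tm2 hA
    refine (PTime.fst (PTime.chunks 3 1 (hF.comp hb))).congr fun g => ?_
    have h1 : F (bitEncode g) = bitEncode (A g) := hF' g
    rw [h1, chunks_bits]
  · intro B hB
    obtain ⟨F, hF, hF'⟩ := ptime_of_tm2 hB
    refine (headD_ptime (hF.comp hb2)).congr fun p => ?_
    have h1 : F (bitEncode p) = [B p] := hF' p
    rw [h1]
    rfl
  · intro B hB
    obtain ⟨F, hF, hF'⟩ := ptime_of_tm2 hB
    refine (headD_ptime (hF.comp hb)).congr fun p => ?_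
    have h1 : F (bitEncode p) = [B p] := hF' p
    rw [h1]
    rfl
  · intro B hB
    obtain ⟨F, hF, hF'⟩ := ptime_of_tm2 hB
    have h1 : PTime (fun g : Game => U (F (bitEncode g))) := hU.comp (hF.comp hb)
    refine (PTime.pair (hNUM.1.comp (PTime.pair (PTime.fst h1) (PTime.length PTime.id)))
      (headD_ptime (PTime.snd h1))).congr fun g => ?_
    have h2 : F (bitEncode g) = delimit (bitEncode (B g).1) ++ [(B g).2] := hF' g
    simp only [h2, hU', hNUM.2.2]
    rfl
  · intro B hB
    obtain ⟨F, hF, hF'⟩ := ptime_of_tm2 hB
    refine (hNUM.1.comp (PTime.pair (hF.comp hb) (PTime.mul (PTime.const 2)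
      (PTime.length PTime.id)))).congr fun g => ?_
    have h2 : F (bitEncode g) = bitEncode (B g) := hF' g
    simp only [h2, hNUM.2.2]

end Pool.PG
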