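import Pool.Agent.H59.PG.All
import Pool.Agent.H59.PG.Bin

/-!
# Parity games with numbers in binary: the theorems
-/

set_option autoImplicit false

namespace Pool.PG

open Filter TMLib N487b59b3 N68a2faeb

/-- `Solves`, for numbers in binary. -/
def SolvesB : Prop :=
  ∃ B : Game × ℕ → Bool, IsPolyTime B ∧
    ∀ (g : Game) (v : ℕ), Valid g → v < g.length → (B (g, v) = true ↔ Win g true v)

/-- `Labels`, for numbers in binary. -/
def LabelsB (δ : ℝ) : Prop :=
  ∃ A : Game → List Bool, IsPolyTime A ∧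
    ∀ g : Game, Valid g → (g.length : ℝ) / 2 - (g.length : ℝ) ^ δ ≤ right g (A g)

/-- `Homog`, for numbers in binary. -/
def HomogB : Prop :=
  ∃ B : Game → Bool, IsPolyTime B ∧
    ∀ (g : Game) (i : Bool), Valid g → 0 < g.length → (∀ v < g.length, Win g i v) → B g = i

/-- `OneVertex`, for numbers in binary. -/
def OneVertexB : Prop :=
  ∃ B : Game → ℕ × Bool, IsPolyTime B ∧
    ∀ g : Game, Valid g → 0 < g.length → (B g).1 < g.length ∧ Win g (B g).2 (B g).1

/-- `Count`, for numbers in binary. -/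
def CountB : Prop :=
  ∃ B : Game → ℕ, IsPolyTime B ∧
    ∀ g : Game, Valid g → 0 < g.length → 2 * |(B g : ℤ) - numWin g| < g.length

namespace Bin

lemma cmp_length (g : Game) : (cmp g).length = g.length := by
  unfold cmp
  simp

lemma right_cmp (h : CMWStmt) {g : Game} (hg : Valid g) (f : List Bool) :
    right (cmp g) f = right g f := by
  classical
  unfold right
  rw [cmp_length]
  congr 1
  refine Finset.filter_congr fun v hv => ?_
  exact (h g hg).2 v (Finset.mem_range.1 hv) _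

lemma numWin_cmp (h : CMWStmt) {g : Game} (hg : Valid g) : numWin (cmp g) = numWin g := by
  classical
  unfold numWin
  rw [cmp_length]
  congr 1
  refine Finset.filter_congr fun v hv => ?_
  exact (h g hg).2 v (Finset.mem_range.1 hv) _

theorem solves_iff (h1 : BOTStmt) (h2 : BINStmt) (h3 : CMWStmt) : SolvesB ↔ Solves := by
  constructor
  · rintro ⟨B, hB, h⟩
    exact ⟨B, h2.2.1 B hB, h⟩
  · rintro ⟨B, hB, h⟩
    refine ⟨_, h1.2 Bool B hB, fun g v hg hv => ?_⟩
    have e : min v g.length = v := min_eq_left hv.le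
    change B (cmp g, min v g.length) = true ↔ _
    rw [e, h (cmp g) v (h3 g hg).1 (by rw [cmp_length]; exact hv)]
    exact (h3 g hg).2 v hv true

theorem labels_iff (h1 : BOTStmt) (h2 : BINStmt) (h3 : CMWStmt) (δ : ℝ) :
    LabelsB δ ↔ Labels δ := by
  constructor
  · rintro ⟨A, hA, h⟩
    exact ⟨A, h2.1 A hA, h⟩
  · rintro ⟨A, hA, h⟩
    refine ⟨_, h1.1 (List Bool) A hA, fun g hg => ?_⟩
    have := h (cmp g) (h3 g hg).1
    rwa [cmp_length, right_cmp h3 hg] at this

theorem homog_iff (h1 : BOTStmt) (h2 : BINStmt) (h3 : CMWStmt) : HomogB ↔ Homog := by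
  constructor
  · rintro ⟨B, hB, h⟩
    exact ⟨B, h2.2.2.1 B hB, h⟩
  · rintro ⟨B, hB, h⟩
    refine ⟨_, h1.1 Bool B hB, fun g i hg h0 hi => ?_⟩
    refine h (cmp g) i (h3 g hg).1 (by rw [cmp_length]; exact h0) fun v hv => ?_
    rw [cmp_length] at hv
    exact ((h3 g hg).2 v hv i).2 (hi v hv)

theorem oneVertex_iff (h1 : BOTStmt) (h2 : BINStmt) (h3 : CMWStmt) :
    OneVertexB ↔ OneVertex := by
  constructor
  · rintro ⟨B, hB, h⟩
    refine ⟨_, h2.2.2.2.1 B hB, fun g hg h0 => ?_⟩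
    obtain ⟨k1, k2⟩ := h g hg h0
    have e : min (B g).1 g.length = (B g).1 := min_eq_left k1.le
    simp only [e]
    exact ⟨k1, k2⟩
  · rintro ⟨B, hB, h⟩
    refine ⟨_, h1.1 (ℕ × Bool) B hB, fun g hg h0 => ?_⟩
    obtain ⟨k1, k2⟩ := h (cmp g) (h3 g hg).1 (by rw [cmp_length]; exact h0)
    rw [cmp_length] at k1
    exact ⟨k1, ((h3 g hg).2 _ k1 _).1 k2⟩

theorem count_iff (h1 : BOTStmt) (h2 : BINStmt) (h3 : CMWStmt) : CountB ↔ Count := by
  classical
  constructor
  · rintro ⟨B, hB, h⟩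
    refine ⟨_, h2.2.2.2.2 B hB, fun g hg h0 => ?_⟩
    have k1 := h g hg h0
    have k2 : numWin g ≤ g.length := by
      unfold numWin
      exact (Finset.card_filter_le _ _).trans (by rw [Finset.card_range])
    have k3 : B g ≤ 2 * g.length := by
      have k4 := le_abs_self ((B g : ℤ) - numWin g)
      omega
    rw [min_eq_left k3]
    exact k1
  · rintro ⟨B, hB, h⟩
    refine ⟨_, h1.1 ℕ B hB, fun g hg h0 => ?_⟩
    have := h (cmp g) (h3 g hg).1 (by rw [cmp_length]; exact h0)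
    rwa [cmp_length, numWin_cmp h3 hg] at this

end Bin

/-- Labels. -/
theorem labelsB_iff (h1 : BOTStmt) (h2 : BINStmt) (h3 : CMWStmt) {δ : ℝ} (hδ : δ < 1 / 4) :
    SolvesB ↔ LabelsB δ := by
  rw [Bin.solves_iff h1 h2 h3, Bin.labels_iff h1 h2 h3]
  constructor
  · exact eas_all.1 δ
  · rintro ⟨A, hA, h⟩
    rcases lt_or_ge 0 δ with h0 | h0
    · exact lso_all δ h0 hδ ⟨A, hA, h⟩
    · refine lso_all (1 / 8) (by norm_num) (by norm_num) ⟨A, hA, fun g hg => ?_⟩
      rcases Nat.eq_zero_or_pos g.length with h1 | h1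
      · rw [h1]
        have h2 : (0 : ℝ) ≤ right g (A g) := Nat.cast_nonneg _
        have h3 : (0 : ℝ) ^ (1 / 8 : ℝ) = 0 := Real.zero_rpow (by norm_num)
        simp only [Nat.cast_zero, h3]
        linarith
      · have h2 : (1 : ℝ) ≤ g.length := by exact_mod_cast h1
        have h3 : (g.length : ℝ) ^ δ ≤ (g.length : ℝ) ^ (1 / 8 : ℝ) :=
          Real.rpow_le_rpow_of_exponent_le h2 (by linarith)
        have h4 := h g hg
        linarith

/-- Homogeneous games, one vertex, approximate counting. -/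
theorem homogB_tfae (h1 : BOTStmt) (h2 : BINStmt) (h3 : CMWStmt) :
    [SolvesB, HomogB, OneVertexB, CountB].TFAE := by
  rw [Bin.solves_iff h1 h2 h3, Bin.homog_iff h1 h2 h3, Bin.oneVertex_iff h1 h2 h3,
    Bin.count_iff h1 h2 h3]
  exact homog_tfae

end Pool.PG
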