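import Pool.Agent.H59.PG.AllB
import Pool.Agent.H15.PG.NUM
import Pool.Agent.H50.PG.SPL
import Pool.Agent.H59.PG.CMW

/-!
# Parity games with numbers in binary: assembly
-/

set_option autoImplicit false

namespace Pool.PG

theorem bot_all : BOTStmt := bot_row (pcm_row spl_row num_row)

theorem bin_all : BINStmt := bin_row spl_row num_row

theorem labelsB_all {δ : ℝ} (hδ : δ < 1 / 4) : SolvesB ↔ LabelsB δ :=
  labelsB_iff bot_all bin_all cmw hδ

theorem homogB_all : [SolvesB, HomogB, OneVertexB, CountB].TFAE :=
  homogB_tfae bot_all bin_all cmw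

end Pool.PG
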