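import Pool.Agent.TM.Lib2

/-!
# Parity games: definitions

A parity game is given as the list of its vertices; a vertex is given by its owner (`true` for the
player `◇` = even, `false` for the player `□` = odd), its priority and the list of its successors;
vertices are numbered by their positions in the list.
-/

set_option autoImplicit false

namespace Pool.PG

open Filter

/-- Owner, priority and successors of a vertex. -/
abbrev Vx : Type := (Bool × ℕ) × List ℕ

/-- A parity game: the list of its vertices. -/
abbrev Game : Type := List Vx

/-- The vertex number `v`. -/
def vx (g : Game) (v : ℕ) : Vx := g.getD v ((false, 0), [])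

/-- The owner of the vertex `v`. -/
def own (g : Game) (v : ℕ) : Bool := (vx g v).1.1

/-- The priority of the vertex `v`. -/
def pri (g : Game) (v : ℕ) : ℕ := (vx g v).1.2

/-- The successors of the vertex `v`. -/
def suc (g : Game) (v : ℕ) : List ℕ := (vx g v).2

/-- Every vertex has a successor, and all successors are vertices. -/
def Valid (g : Game) : Prop := ∀ v < g.length, suc g v ≠ [] ∧ ∀ w ∈ suc g v, w < g.length

/-- `x` is an infinite play which begins in `v`. -/
def Play (g : Game) (v : ℕ) (x : ℕ → ℕ) : Prop := x 0 = v ∧ ∀ n, x (n + 1) ∈ suc g (x n)

/-- The sequence `x` of vertices is won by the player `i`: the smallest priority seen infinitely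
often is even if `i` is `◇`, and odd if `i` is `□`. -/
def WonBy (g : Game) (i : Bool) (x : ℕ → ℕ) : Prop :=
  ∃ p : ℕ, (∃ᶠ n in atTop, pri g (x n) = p) ∧ (∀ᶠ n in atTop, p ≤ pri g (x n)) ∧
    (Even p ↔ i = true)

/-- The function `σ` on histories (nonempty finite sequences of vertices) is a strategy of the
player `i`: it chooses a successor of the last vertex of the history, if this vertex is owned by
`i`. -/
def Strat (g : Game) (i : Bool) (σ : List ℕ → ℕ) : Prop :=
  ∀ (h : List ℕ) (v : ℕ), v < g.length → own g v = i → σ (h ++ [v]) ∈ suc g v

/-- The player `i` follows the strategy `σ` in `x`. -/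
def Follows (g : Game) (i : Bool) (σ : List ℕ → ℕ) (x : ℕ → ℕ) : Prop :=
  ∀ n, own g (x n) = i → x (n + 1) = σ ((List.range (n + 1)).map x)

/-- The player `i` has a winning strategy from the vertex `v`. -/
def Win (g : Game) (i : Bool) (v : ℕ) : Prop :=
  ∃ σ : List ℕ → ℕ, Strat g i σ ∧ ∀ x, Play g v x → Follows g i σ x → WonBy g i x

open Classical in
/-- The number of vertices `v` whose label `f v` is the player who wins from `v`. -/
noncomputable def right (g : Game) (f : List Bool) : ℕ :=
  ((Finset.range g.length).filter fun v => Win g (f.getD v false) v).card

open Classical in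
/-- The number of vertices won by `◇`. -/
noncomputable def numWin (g : Game) : ℕ :=
  ((Finset.range g.length).filter fun v => Win g true v).card

end Pool.PG
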