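import Pool.Agent.H59.PG.Defs

/-!
# Parity games: the functions of the algorithm and the statements of the rows
-/

set_option autoImplicit false

namespace Pool.PG

open Filter TMLib

/-! ## Positional solutions -/

/-- `W` is the winner and `σ` a positional winning strategy for both players. -/
structure Sol (g : Game) (W : ℕ → Bool) (σ : ℕ → ℕ) : Prop where
  mem : ∀ v < g.length, σ v ∈ suc g v
  stay : ∀ v < g.length, own g v = W v → W (σ v) = W v
  trap : ∀ v < g.length, own g v ≠ W v → ∀ w ∈ suc g v, W w = W v
  won : ∀ v < g.length, ∀ x, Play g v x → (∀ n, own g (x n) = W v → x (n + 1) = σ (x n)) →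
    WonBy g (W v) x

open Classical in
/-- The winner. -/
noncomputable def win (g : Game) (v : ℕ) : Bool := decide (Win g true v)

/-! ### Abstract games -/

/-- The player `i` wins the sequence of priorities `q`. -/
def WonP (i : Bool) (q : ℕ → ℕ) : Prop :=
  ∃ p : ℕ, (∃ᶠ n in atTop, q n = p) ∧ (∀ᶠ n in atTop, p ≤ q n) ∧ (Even p ↔ i = true)

/-- `W`, `σ` solve the game on the set `S` of vertices. -/
structure SolS {V : Type} (own : V → Bool) (pri : V → ℕ) (E : V → V → Prop) (S : Finset V)
    (W : V → Bool) (σ : V → V) : Prop where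
  mem : ∀ v ∈ S, σ v ∈ S ∧ E v (σ v)
  stay : ∀ v ∈ S, own v = W v → W (σ v) = W v
  trap : ∀ v ∈ S, own v ≠ W v → ∀ w ∈ S, E v w → W w = W v
  won : ∀ v ∈ S, ∀ x : ℕ → V, x 0 = v → (∀ n, x n ∈ S ∧ E (x n) (x (n + 1))) →
    (∀ n, own (x n) = W v → x (n + 1) = σ (x n)) → WonP (W v) (fun n => pri (x n))

/-- **ATR** (60). Attractors of the player `i` to `U` in `S`, with strategy `α` and rank `ρ`.
(Iterate: `A_0 = U`, `A_(k+1)` = `A_k` and the `v ∈ S` with `own v = i` and a successor in `A_k`, or
`own v ≠ i` and all successors in `S` in `A_k`; stop after `S.card` steps; `ρ v` = first `k`.) -/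
def ATRStmt : Prop :=
  ∀ (V : Type) (own : V → Bool) (E : V → V → Prop) (i : Bool) (S U : Finset V), U ⊆ S →
    (∀ v ∈ S, ∃ w ∈ S, E v w) →
    ∃ (A : Finset V) (α : V → V) (ρ : V → ℕ), U ⊆ A ∧ A ⊆ S ∧
      (∀ v ∈ A, v ∉ U → own v = i → α v ∈ A ∧ E v (α v) ∧ ρ (α v) < ρ v) ∧
      (∀ v ∈ A, v ∉ U → own v ≠ i → ∀ w ∈ S, E v w → w ∈ A ∧ ρ w < ρ v) ∧
      (∀ v ∈ S, v ∉ A → own v = i → ∀ w ∈ S, E v w → w ∉ A) ∧
      (∀ v ∈ S, v ∉ A → own v ≠ i → ∃ w ∈ S, w ∉ A ∧ E v w)

/-- **DTA** (200, needs ATR). Positional determinacy, by strong induction on `S.card`.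
`S = ∅`: trivial.  Let `p` be the smallest priority on `S`, `i` its player (`i = true` iff `p` is
even), `U` the vertices of `S` with priority `p`, `A` the attractor of `i` to `U`; `S' = S \ A` is
total; take `(W', σ')` for `S'`.
Case 1, `W' = i` on `S'`.  Then `W = i` on `S`; `σ = σ'` on `S'`, `σ = α` on `A \ U` (vertices of
owner `i`), any successor in `S` elsewhere.  A play which follows `σ` at the vertices of `i` is in `A`
infinitely often, hence in `U` infinitely often (the rank decreases), and `p` is the smallest priority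
seen infinitely often; or it is in `S'` from some time on and there follows `σ'`.
Case 2, `W' v = !i` for some `v ∈ S'`.  `X` the set of these `v`, `B` the attractor of `!i` to `X` in
`S`, `S'' = S \ B`, `(W'', σ'')` for `S''`.  `W = !i` on `B`, `W = W''` on `S''`; `σ = σ'` on `X`
(owner `!i`), `α_B` on `B \ X` (owner `!i`), `σ''` on `S''`.  A vertex of `X` owned by `i` has all
its successors in `S` in `X` (not in `A`, by the third property of `A`; then by `trap` for `W'`).  A
vertex of `S''` with `W'' = i` owned by `!i` has no successor in `B`.  Plays won by `!i`: in `S''`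
from some time on (follow `σ''`; stay in `W'' = !i`), or in `B` at some time, then in `X`, and in `X`
for ever, following `σ'`.  Plays from `W'' = i` stay in `S''`. -/
def DTAStmt : Prop :=
  ∀ (V : Type) (own : V → Bool) (pri : V → ℕ) (E : V → V → Prop) (S : Finset V),
    (∀ v ∈ S, ∃ w ∈ S, E v w) → ∃ (W : V → Bool) (σ : V → V), SolS own pri E S W σ

/-- **DET** (30, needs DTA). Positional determinacy for lists: `V = ℕ`, `S = range g.length`,
`E v w` = `w ∈ suc g v`. -/
def DETStmt : Prop := ∀ g : Game, Valid g → ∃ (W : ℕ → Bool) (σ : ℕ → ℕ), Sol g W σ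

/-- **WIN** (100). The winner of a positional solution is the winner for strategies which depend on
the history.  (`W v = i`: use `σ` as a strategy on histories.  Conversely let `τ` be winning for
`i ≠ W v`: the play from `v` in which `i` follows `τ` and `W v` follows `σ` (define the list of the
first `n + 1` vertices by recursion on `n`) is won by both players.) -/
def WINStmt : Prop :=
  ∀ (g : Game) (W : ℕ → Bool) (σ : ℕ → ℕ), Valid g → Sol g W σ →
    ∀ v < g.length, ∀ i : Bool, Win g i v ↔ W v = i

/-- **SOL** (30, needs DET, WIN). The winner `win g`. -/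
def SOLStmt : Prop :=
  ∀ g : Game, Valid g → (∃ σ : ℕ → ℕ, Sol g (win g) σ) ∧
    ∀ v < g.length, ∀ i : Bool, Win g i v ↔ win g v = i

/-- **EMB** (60, needs SOL). Embeddings keep the winner.  (Let `σ`, `τ` be solutions of `g`, `h`.  If
`win g u = i` and `win h (φ u) = !i`, define `y 0 = u`, `y (n + 1) = σ (y n)` if `own g (y n) = i`,
and otherwise some `w ∈ suc g (y n)` with `φ w = τ (φ (y n))`; then `φ ∘ y` is won by both.) -/
def EMBStmt : Prop :=
  ∀ (g h : Game) (φ : ℕ → ℕ), Valid g → Valid h →
    (∀ u < g.length, φ u < h.length ∧ own h (φ u) = own g u ∧ pri h (φ u) = pri g u ∧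
      suc h (φ u) = (suc g u).map φ) →
    ∀ u < g.length, win h (φ u) = win g u

/-! ## Games with resets -/

/-- The game `g` with resets to the vertex `r`: every vertex is preceded by a vertex of the other
player; both players may go at each of their vertices to their reset vertex, the successor of which
is `r`.  The reset vertex of `□` has the priority `0`, that of `◇` the priority `1`. -/
def rst (r : ℕ) (g : Game) : Game :=
  ((List.range g.length).flatMap fun u =>
    [((!own g u, pri g u + 2), [2 * g.length + (!own g u).toNat, 2 * u + 1]),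
      ((own g u, pri g u + 2), (2 * g.length + (own g u).toNat) :: (suc g u).map fun w => 2 * w)]) ++
  [((false, 0), [2 * r]), ((true, 1), [2 * r]), ((true, 0), [2 * r])]

/-- **RSL** (50). The vertices of `rst r g`. -/
def RSLStmt : Prop :=
  ∀ (g : Game) (r : ℕ), (rst r g).length = 2 * g.length + 3 ∧
    (∀ u < g.length,
      vx (rst r g) (2 * u) =
        ((!own g u, pri g u + 2), [2 * g.length + (!own g u).toNat, 2 * u + 1]) ∧
      vx (rst r g) (2 * u + 1) =
        ((own g u, pri g u + 2),
          (2 * g.length + (own g u).toNat) :: (suc g u).map fun w => 2 * w)) ∧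
    vx (rst r g) (2 * g.length) = ((false, 0), [2 * r]) ∧
    vx (rst r g) (2 * g.length + 1) = ((true, 1), [2 * r]) ∧
    vx (rst r g) (2 * g.length + 2) = ((true, 0), [2 * r]) ∧
    (Valid g → r < g.length → Valid (rst r g))

/-- **RST** (180, needs SOL, RSL, WIN). All vertices of `rst r g` are won by the winner `i` of `r`.
(Let `σ` be a solution of `g`; it is enough to give a positional strategy of `i` which wins from all
vertices.  At a vertex `2 u` or `2 u + 1` owned by `i`: if `win g u ≠ i`, go to the reset vertex
`R_i = 2 |g| + i.toNat`; if `win g u = i`, go from `2 u` to `2 u + 1`, and from `2 u + 1` to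
`2 σ u`.  After a visit of `2 r` the play stays in the vertices `2 u`, `2 u + 1` with `win g u = i`
and in `R_(!i)`, so `R_i` is visited at most once.  If `R_(!i)` is visited infinitely often: the
priority `0` (`i = ◇`), or `1` and not `0` (`i = □`), is the smallest one seen infinitely often.
Otherwise the play is from some time on in the vertices `2 u`, `2 u + 1`, which alternate, with
`win g u = i` (else `i` would go to `R_i` at `2 u` or at `2 u + 1`), and every second vertex gives a
play of `g` which follows `σ` at the vertices of `i`; all priorities are seen twice, plus two.) -/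
def RSTStmt : Prop :=
  ∀ (g : Game) (r : ℕ), Valid g → r < g.length → ∀ u < (rst r g).length, win (rst r g) u = win g r

/-! ## Disjoint unions, alternatives -/

/-- Shift the successors. -/
def shE (o : ℕ) (e : Vx) : Vx := (e.1, e.2.map fun w => w + o)

/-- The games of the list `ps`, all of length `s`, one after the other, beginning with number
`o`. -/
def glue (o s : ℕ) (ps : List Game) : Game :=
  (List.range ps.length).flatMap fun k => (ps.getD k []).map (shE (o + k * s))

/-- The game in which `◇` chooses one of the games of the list `ts`, all of length `n`, which then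
begins in `v`. -/
def org (n v : ℕ) (ts : List Game) : Game :=
  ((true, 1), 0 :: (List.range ts.length).map fun k => 1 + k * n + v) :: glue 1 n ts

/-- **GLU** (40). The vertices of `glue`. -/
def GLUStmt : Prop :=
  ∀ (o s : ℕ) (ps : List Game), (∀ p ∈ ps, p.length = s) →
    (glue o s ps).length = ps.length * s ∧
    ∀ k < ps.length, ∀ u < s, vx (glue o s ps) (k * s + u) = shE (o + k * s) (vx (ps.getD k []) u)

/-- **CAT** (50, needs EMB, GLU). Disjoint unions. -/
def CATStmt : Prop :=
  ∀ (s : ℕ) (ps : List Game), (∀ p ∈ ps, Valid p ∧ p.length = s) →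
    Valid (glue 0 s ps) ∧ (glue 0 s ps).length = ps.length * s ∧
    ∀ k < ps.length, ∀ u < s, win (glue 0 s ps) (k * s + u) = win (ps.getD k []) u

/-- **ORG** (120, needs EMB, GLU, SOL, WIN). Alternatives.  (The vertices `1 + k n + u` by `EMB` with
`φ u = 1 + k n + u`.  At `0`: if some `t_k` is won by `◇` from `v`, go there and follow a solution.
If `◇` wins from `0` by the solution `σ`, then `σ 0 ≠ 0`, as the priority of `0` is odd, so
`σ 0 = 1 + k n + v` is won by `◇`.) -/
def ORGStmt : Prop :=
  ∀ (n v : ℕ) (ts : List Game), v < n → (∀ t ∈ ts, Valid t ∧ t.length = n) →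
    Valid (org n v ts) ∧ (org n v ts).length = 1 + ts.length * n ∧
    (win (org n v ts) 0 = true ↔ ∃ t ∈ ts, win t v = true)

/-! ## Exchange of the players, restriction of the choices, evaluation -/

/-- Exchange of the players. -/
def dual (g : Game) : Game := g.map fun e => ((!e.1.1, e.1.2 + 1), e.2)

/-- **DUA** (50, needs SOL, WIN). -/
def DUAStmt : Prop :=
  ∀ g : Game, (dual g).length = g.length ∧ (Valid g → Valid (dual g)) ∧
    (∀ v < g.length, own (dual g) v = !own g v ∧ suc (dual g) v = suc g v) ∧
    (Valid g → ∀ v < g.length, win (dual g) v = !win g v)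

/-- The game in which `w` is the only successor of `j`. -/
def res (g : Game) (j w : ℕ) : Game :=
  (List.range g.length).map fun u => if u = j then ((vx g u).1, [w]) else vx g u

/-- All choices of `◇` at the vertex `j`. -/
def chd (g : Game) (j : ℕ) : List Game := if own g j = true then (suc g j).map (res g j) else [g]

/-- **CHD** (80, needs SOL, WIN). (`→`: `w = σ j`.  `←`: a winning strategy in `res g j w` is one in
`g`.) -/
def CHDStmt : Prop :=
  ∀ (g : Game) (j v : ℕ), Valid g → j < g.length → v < g.length →
    (∀ t ∈ chd g j, Valid t ∧ t.length = g.length ∧ sz t ≤ sz g ∧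
      (∀ u, own t u = own g u ∧ pri t u = pri g u) ∧ (∀ u, u ≠ j → suc t u = suc g u) ∧
      (own g j = false → suc t j = suc g j) ∧ (own g j = true → ∃ w, suc t j = [w])) ∧
    (chd g j).length ≤ sz g ∧
    (win g v = true ↔ ∃ t ∈ chd g j, win t v = true)

/-- The first successor. -/
def nx (g : Game) (v : ℕ) : ℕ := (suc g v).headD 0

/-- Parity. -/
def evb (n : ℕ) : Bool := Nat.rec true (fun _ b => !b) n

/-- The smallest element of a list. -/
def mnl (l : List ℕ) : ℕ := l.foldl min (l.headD 0)

/-- Evaluation of a game in which nobody has a choice. -/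
def ev (v : ℕ) (g : Game) : Bool :=
  evb (mnl ((List.range g.length).map fun i => pri g ((nx g)^[g.length + i] v)))

/-- **EVD** (90, needs SOL). (The only play from `v` is `x n = (nx g)^[n] v`; two of the first
`|g| + 1` vertices are equal; so from `|g|` on it is periodic with a period `≤ |g|`, and the smallest
priority seen infinitely often is the smallest one at the times `|g|, ..., 2 |g| - 1`.) -/
def EVDStmt : Prop :=
  ∀ (g : Game) (v : ℕ), Valid g → v < g.length → (∀ u < g.length, ∃ w, suc g u = [w]) →
    win g v = ev v g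

/-! ## Pruning and search -/

/-- Remove the game number `w T` if the list has at least `M` elements. -/
def pr1 (w : List Game → ℕ) (M : ℕ) (T : List Game) : List Game :=
  if T.length < M then T else T.eraseIdx (w (T.take M))

/-- Remove until the list has less than `M` elements. -/
def prn (w : List Game → ℕ) (M : ℕ) (T : List Game) : List Game :=
  ((pr1 w M)^[T.length] T).take M

/-- Choose the moves of `◇` at all vertices, with pruning. -/
def lvs (w : List Game → ℕ) (M : ℕ) (g : Game) : List Game :=
  (List.range g.length).foldl (fun T j => prn w M (T.flatMap fun t => chd t j)) [g]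

/-- Search for a good choice. -/
def srch (w : List Game → ℕ) (M : ℕ) (leaf : Game → Bool) (g : Game) : Bool :=
  (lvs w M g).any leaf

/-- `w` finds among `M` games one which is not the only one won by `◇` from `v`. -/
def Sel (w : List Game → ℕ) (M v n : ℕ) : Prop :=
  ∀ ts : List Game, ts.length = M → (∀ t ∈ ts, Valid t ∧ t.length = n) →
    w ts < M ∧ ¬ ∀ k < M, (win (ts.getD k []) v = true ↔ k = w ts)

/-- **PRN** (70). (`pr1` keeps `∃ t ∈ T, win t v`: if the removed game is the only one of `T` which is
won, it is the only one of `T.take M`; the games at other positions stay in the list.) -/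
def PRNStmt : Prop :=
  ∀ (w : List Game → ℕ) (M v n : ℕ), 1 ≤ M → Sel w M v n → ∀ T : List Game,
    (∀ t ∈ T, Valid t ∧ t.length = n) →
    (∀ t ∈ prn w M T, t ∈ T) ∧ (prn w M T).length < M ∧
    ((∃ t ∈ prn w M T, win t v = true) ↔ ∃ t ∈ T, win t v = true)

/-- **LVS** (90, needs CHD, PRN). -/
def LVSStmt : Prop :=
  ∀ (w : List Game → ℕ) (M v : ℕ) (g : Game), 1 ≤ M → Valid g → v < g.length →
    Sel w M v g.length →
    (∀ t ∈ lvs w M g, Valid t ∧ t.length = g.length ∧
      (∀ u < g.length, own t u = own g u ∧ (own g u = false → suc t u = suc g u) ∧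
        (own g u = true → ∃ x, suc t u = [x]))) ∧
    ((∃ t ∈ lvs w M g, win t v = true) ↔ win g v = true)

/-- **SR1** (20, needs LVS, EVD). -/
def SR1Stmt : Prop :=
  ∀ (w : List Game → ℕ) (M v : ℕ) (g : Game), 1 ≤ M → Valid g → v < g.length →
    Sel w M v g.length → (∀ u < g.length, own g u = false → ∃ x, suc g u = [x]) →
    srch w M (ev v) g = win g v

/-- **SR2** (30, needs LVS, SR1, DUA). -/
def SR2Stmt : Prop :=
  ∀ (w : List Game → ℕ) (M v : ℕ) (g : Game), 1 ≤ M → Valid g → v < g.length →
    Sel w M v g.length → srch w M (fun t => !srch w M (ev v) (dual t)) g = win g v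

/-! ## Codes -/

/-- The rows of the Sylvester matrix of order `2 ^ j`. -/
def hd : ℕ → List (List Bool)
  | 0 => [[true]]
  | j + 1 => (hd j).map (fun r => r ++ r) ++ (hd j).map (fun r => r ++ r.map fun b => !b)

/-- The rows of the first of these matrices which has at least `L` rows. -/
def hdL (L : ℕ) : List (List Bool) :=
  (fun H : List (List Bool) => if H.length < L then
    H.map (fun r => r ++ r) ++ H.map (fun r => r ++ r.map fun b => !b) else H)^[L] [[true]]

/-- The rows and their negatives. -/
def cdw (H : List (List Bool)) : List (List Bool) := H ++ H.map fun r => r.map fun b => !b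

/-- **HDL** (30). -/
def HDLStmt : Prop :=
  ∀ L : ℕ, 1 ≤ L → ∃ j : ℕ, hdL L = hd j ∧ L ≤ 2 ^ j ∧ 2 ^ j ≤ 2 * L

/-- **HAD** (100). The code: lengths, every column of `cdw` has `2 ^ j` entries `true`; the
orthogonality in the form of Parseval.  (Induction on `j`.) -/
def HADStmt : Prop :=
  ∀ j : ℕ, (hd j).length = 2 ^ j ∧ (∀ r ∈ hd j, r.length = 2 ^ j) ∧
    (∀ x < 2 ^ j, ((List.range (2 * 2 ^ j)).filter fun k =>
      ((cdw (hd j)).getD k []).getD x false).length = 2 ^ j) ∧
    ∀ f : ℕ → ℤ, ((hd j).map fun r =>
      (∑ x ∈ Finset.range (2 ^ j), if r.getD x false = true then f x else -f x) ^ 2).sum =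
        2 ^ j * ∑ x ∈ Finset.range (2 ^ j), f x ^ 2

/-- Number of the `(x, u)`, `u < s`, such that the label number `x s + u` is `c x`. -/
def agr (f : List Bool) (s : ℕ) (c : List Bool) : ℕ :=
  ((List.range c.length).map fun x =>
    ((List.range s).filter fun u => f.getD (x * s + u) false == c.getD x false).length).sum

/-- The first place of a minimum. -/
def argm (q : ℕ → ℕ) (M : ℕ) : ℕ := (List.range M).foldl (fun b k => if q k < q b then k else b) 0

/-- **AGM** (20). -/
def AGMStmt : Prop :=
  ∀ (q : ℕ → ℕ) (M : ℕ), 0 < M → argm q M < M ∧ ∀ k < M, q (argm q M) ≤ q k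

/-- **WOR** (70, needs HAD, AGM). Some code word agrees with the labels at most half of the time, up to
a square root.  (`f x` = number of labels `true` minus number of labels `false` in the part `x`, an
odd integer; `2 agr = N s + ∑ ± f x`; by Parseval some row has `(∑ ± f x) ^ 2 ≥ N`; take the row or
its negative.) -/
def WORStmt : Prop :=
  ∀ (j s : ℕ) (f : List Bool), Odd s → ∀ C : List (List Bool), C = cdw (hd j) →
    (2 * agr f s (C.getD (argm (fun k => agr f s (C.getD k [])) C.length) []) : ℝ) +
      Real.sqrt (2 ^ j) ≤ 2 ^ j * s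

/-- **ARI** (50). Choice of the order of the matrix. -/
def ARIStmt : Prop :=
  ∀ δ : ℝ, 0 < δ → δ < 1 / 4 → ∃ e : ℕ, ∀ n : ℕ, 1 ≤ n → ∀ N : ℕ, (28 * n) ^ e ≤ N →
    ((N * (2 * (1 + N * n) + 3) : ℕ) : ℝ) ^ δ < Real.sqrt N / 2

/-! ## The two selectors -/

/-- The games `ts k` such that the code word number `k` is `true` at `x`. -/
def sel (C : List (List Bool)) (x : ℕ) (ts : List Game) : List Game :=
  ((List.range C.length).filter fun k => (C.getD k []).getD x false).map fun k => ts.getD k []

/-- **SLC** (30). -/
def SLCStmt : Prop :=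
  ∀ (C : List (List Bool)) (x : ℕ) (ts : List Game), ts.length = C.length →
    (∀ t ∈ sel C x ts, t ∈ ts) ∧
    (sel C x ts).length =
      ((List.range C.length).filter fun k => (C.getD k []).getD x false).length ∧
    ∀ P : Game → Prop, (∃ t ∈ sel C x ts, P t) ↔
      ∃ k < C.length, (C.getD k []).getD x false = true ∧ P (ts.getD k [])

/-- The selector from labels: the union of the games with resets of the alternatives
`sel C x ts`, `x < N`. -/
def wl (A : Game → List Bool) (N : ℕ) (C : List (List Bool)) (n v : ℕ) (ts : List Game) : ℕ :=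
  argm (fun k => agr (A (glue 0 (2 * (1 + N * n) + 3)
    ((List.range N).map fun x => rst 0 (org n v (sel C x ts))))) (2 * (1 + N * n) + 3)
      (C.getD k [])) C.length

/-- The selector from tuples of answers. -/
def wt (A : List (Game × ℕ) → List Bool) (m : ℕ) (C : List (List Bool)) (n v : ℕ)
    (ts : List Game) : ℕ :=
  argm (fun k => agr (A ((List.range m).map fun x => (org n v (sel C x ts), 0))) 1
    (C.getD k [])) C.length

/-- All words of length `m`. -/
def bt : ℕ → List (List Bool)
  | 0 => [[]]
  | m + 1 => (bt m).map (fun r => true :: r) ++ (bt m).map (fun r => false :: r)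

/-- **SWL** (120, needs ORG, RST, RSL, CAT, HAD, WOR, SLC, SOL). The selector from labels: if `t_k`
is the only game won by `◇`, then the winner of the part `x` is the entry `x` of the code word `k`,
and the number of right labels is `agr` of the code word `k`. -/
def SWLStmt : Prop :=
  ∀ (A : Game → List Bool) (δ : ℝ) (j n v : ℕ), v < n →
    (∀ g : Game, Valid g → (g.length : ℝ) / 2 - (g.length : ℝ) ^ δ ≤ right g (A g)) →
    ((2 ^ j * (2 * (1 + 2 ^ j * n) + 3) : ℕ) : ℝ) ^ δ < Real.sqrt (2 ^ j) / 2 →
    Sel (wl A (2 ^ j) (cdw (hd j)) n v) (2 * 2 ^ j) v n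

/-- **SWT** (80, needs ORG, SLC, SOL, AGM). The selector from tuples: the word of the negated
answers has agreement `0`, so the minimum is `0`; if `t_k` is the only game won by `◇`, the code word
`k` is the word of the winners, and it agrees with the answers somewhere. -/
def SWTStmt : Prop :=
  ∀ (A : List (Game × ℕ) → List Bool) (m n v : ℕ), v < n →
    (∀ l : List (Game × ℕ), l.length = m → (∀ p ∈ l, Valid p.1 ∧ p.2 < p.1.length) →
      ∃ x < m, Win (l.getD x ([], 0)).1 ((A l).getD x false) (l.getD x ([], 0)).2) →
    (bt m).length = 2 ^ m ∧ Sel (wt A m (bt m) n v) (2 ^ m) v n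

/-! ## Polynomial time -/

/-- **PV1** (60). The functions `vx`, `own`, `pri`, `suc`, `shE`, `evb`, `mnl`. -/
def PV1Stmt : Prop :=
  PTime (fun p : Game × ℕ => vx p.1 p.2) ∧ PTime (fun p : Game × ℕ => own p.1 p.2) ∧
  PTime (fun p : Game × ℕ => pri p.1 p.2) ∧ PTime (fun p : Game × ℕ => suc p.1 p.2) ∧
  PTime (fun p : ℕ × Vx => shE p.1 p.2) ∧ PTime evb ∧ PTime mnl

/-- **PGL** (30, needs PV1). -/
def PGLStmt : Prop :=
  PTime (fun p : (ℕ × ℕ) × List Game => glue p.1.1 p.1.2 p.2) ∧
  PTime (fun p : (ℕ × ℕ) × List Game => org p.1.1 p.1.2 p.2)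

/-- **PRS** (40, needs PV1). -/
def PRSStmt : Prop := PTime (fun p : ℕ × Game => rst p.1 p.2)

/-- **PDC** (30, needs PV1). -/
def PDCStmt : Prop := PTime dual ∧ PTime (fun p : Game × ℕ => chd p.1 p.2)

/-- **PEV** (50, needs PV1). (For the iterates: `PTime.iter` on `(g, u)`; the size of `nx g u` is at most
that of `g`.) -/
def PEVStmt : Prop := PTime (fun p : ℕ × Game => ev p.1 p.2)

/-- **PHL** (50). -/
def PHLStmt : Prop := PTime hdL ∧ PTime cdw

/-- **PAG** (50). -/
def PAGStmt : Prop :=
  PTime (fun p : (List Bool × ℕ) × List Bool => agr p.1.1 p.1.2 p.2) ∧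
  ∀ (α : Type) [Enc α] (q : α → ℕ → ℕ) (M : α → ℕ), PTime (fun p : α × ℕ => q p.1 p.2) →
    PTime M → PTime (fun a => argm (q a) (M a))

/-- **PSE** (30). -/
def PSEStmt : Prop :=
  PTime (fun p : (List (List Bool) × ℕ) × List Game => sel p.1.1 p.1.2 p.2)

/-- **PWL** (60, needs PGL, PRS, PAG, PSE). -/
def PWLStmt : Prop :=
  ∀ (A : Game → List Bool) (α : Type) [Enc α] (N n v : α → ℕ) (C : α → List (List Bool)),
    PTime A → PTime N → PTime n → PTime v → PTime C →
    PTime (fun p : α × List Game => wl A (N p.1) (C p.1) (n p.1) (v p.1) p.2)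

/-- **PWT** (60, needs PGL, PAG, PSE). -/
def PWTStmt : Prop :=
  ∀ (A : List (Game × ℕ) → List Bool) (m : ℕ) (α : Type) [Enc α] (n v : α → ℕ)
    (C : α → List (List Bool)), PTime A → PTime n → PTime v → PTime C →
    PTime (fun p : α × List Game => wt A m (C p.1) (n p.1) (v p.1) p.2)

/-- **PPR** (70). (`PTime.iter` for `pr1`, the size of the list does not grow.) -/
def PPRStmt : Prop :=
  ∀ (α : Type) [Enc α] (w : α → List Game → ℕ) (M : α → ℕ),
    PTime (fun p : α × List Game => w p.1 p.2) → PTime M →
    PTime (fun p : α × List Game => prn (w p.1) (M p.1) p.2)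

/-- **PSR** (120, needs PPR, PDC). (`PTime.foldl`; the intermediate lists have at most `M` elements,
each of size at most `sz g`: an element of `chd t j` has size at most `sz t`.) -/
def PSRStmt : Prop :=
  ∀ (α : Type) [Enc α] (w : α → List Game → ℕ) (M : α → ℕ) (leaf : α → Game → Bool),
    PTime (fun p : α × List Game => w p.1 p.2) → PTime M →
    PTime (fun p : α × Game => leaf p.1 p.2) →
    PTime (fun p : α × Game => srch (w p.1) (M p.1) (leaf p.1) p.2)

/-! ## The theorem -/

/-- The winner can be computed in polynomial time. -/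
def Solves : Prop :=
  ∃ B : Game × ℕ → Bool, PTime B ∧
    ∀ (g : Game) (v : ℕ), Valid g → v < g.length → (B (g, v) = true ↔ Win g true v)

/-- Labels of all vertices, at least `|g| / 2 - |g| ^ δ` of which are right. -/
def Labels (δ : ℝ) : Prop :=
  ∃ A : Game → List Bool, PTime A ∧
    ∀ g : Game, Valid g → (g.length : ℝ) / 2 - (g.length : ℝ) ^ δ ≤ right g (A g)

/-- The winner of the games all of whose vertices are won by the same player. -/
def Homog : Prop :=
  ∃ B : Game → Bool, PTime B ∧
    ∀ (g : Game) (i : Bool), Valid g → 0 < g.length → (∀ v < g.length, Win g i v) → B g = i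

/-- One vertex and its winner. -/
def OneVertex : Prop :=
  ∃ B : Game → ℕ × Bool, PTime B ∧
    ∀ g : Game, Valid g → 0 < g.length → (B g).1 < g.length ∧ Win g (B g).2 (B g).1

/-- The number of vertices won by `◇`, with an error of less than half the number of vertices. -/
def Count : Prop :=
  ∃ B : Game → ℕ, PTime B ∧
    ∀ g : Game, Valid g → 0 < g.length → 2 * |(B g : ℤ) - numWin g| < g.length

/-- Answers to `m` questions, at least one of which is right. -/
def Tuples (m : ℕ) : Prop :=
  ∃ A : List (Game × ℕ) → List Bool, PTime A ∧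
    ∀ l : List (Game × ℕ), l.length = m → (∀ p ∈ l, Valid p.1 ∧ p.2 < p.1.length) →
      ∃ x < m, Win (l.getD x ([], 0)).1 ((A l).getD x false) (l.getD x ([], 0)).2

/-- **EAS** (80, needs SOL, RST, RSL, PRS). The easy implications. -/
def EASStmt : Prop :=
  (∀ δ, Solves → Labels δ) ∧ (Solves → OneVertex) ∧ (Solves → Count) ∧
  (∀ m, 1 ≤ m → Solves → Tuples m) ∧ (OneVertex → Homog) ∧ (Count → Homog) ∧ (Homog → Solves)

/-- **LSO** (60, needs SR2, SWL, HAD, HDL, ARI, PWL, PSR, PEV, PDC, PHL). Labels give a solution:
`L = (28 n) ^ e`, `N` the order of `hdL L`. -/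
def LSOStmt : Prop := ∀ δ : ℝ, 0 < δ → δ < 1 / 4 → Labels δ → Solves

/-- **TSO** (40, needs SR2, SWT, PWT, PSR, PEV, PDC). -/
def TSOStmt : Prop := ∀ m : ℕ, 1 ≤ m → Tuples m → Solves

end Pool.PG
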